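import Pool.Agent.Work.MP_b8a914_gt.G.B

set_option autoImplicit false

open Pool.Agent.B8a914

namespace Pool.Agent.Work.MP_b8a914_gt.Variants.GfLeAdd

/-- The additivity of the Menger property is at least the groupwise density number for filters. -/
theorem result : filterGroupwiseDensity ≤ addMenger :=
  gf_le_add

end Pool.Agent.Work.MP_b8a914_gt.Variants.GfLeAdd
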