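import Pool.Agent.Work.MP_b8a914_gt.G.B

set_option autoImplicit false

open Pool.Agent.B8a914

namespace Pool.Agent.Work.MP_b8a914_gt.Variants.NoUnderFD

/-- Under the filter dichotomy the sequential fan embeds in the continuous real functions of no
Menger space. -/
theorem result (h : FilterDichotomy) (X : Type) [TopologicalSpace X] (hX : IsMenger X) :
    ¬ FanInCp X :=
  fun hF => not_FD_of_fan hX hF h

end Pool.Agent.Work.MP_b8a914_gt.Variants.NoUnderFD
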